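import Mathlib
import Pool.Agent.H55.FX.Stm
import Pool.Agent.H40.FV.Base3

set_option autoImplicit false

/-! # Project FX (helper55), module base3x (after helper40's base3w) -/

namespace Pool.Agent.H69.FX

open Pool.Agent.W608.PR Pool.Agent.H55.FU Pool.Agent.H55.FV Pool.Agent.H55.FW Pool.Agent.H55.FX
open Pool.Agent.H40.FV (rm_of rm_all aff Nn_gro dm_gro first_step)

theorem base3x : S_base3x := by
  intro E κ c c' L D W e2 hE hB
  obtain ⟨b1, b2, bL, b3, b4, b5, bP, b6, b7, b8, b9⟩ := hB
  refine ⟨⟨?_, ?_, b1⟩, ⟨bL, ?_⟩, ?_⟩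
  · intro a f ha ha3 haf
    have : a = 1 ∨ a = 2 := by omega
    rcases this with rfl | rfl
    · refine rm_all (f0 := L - 1) (by norm_num) (by omega) ?_ f (by omega)
      rw [show L - 1 + 1 = L by omega, show L - 1 + 2 - (1 + 1) = L - 1 by omega,
        show 1 + 1 + E = E + 2 by ring]
      exact b3
    · refine rm_all (f0 := L) (by norm_num) (by omega) ?_ f (by omega)
      rw [show L + 2 - (2 + 1) = L - 1 by omega, show 2 + 1 + E = E + 3 by ring]
      exact b4
  · intro f hf
    refine rm_all (f0 := L + 1) (by norm_num) (by omega) ?_ f hf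
    rw [show L + 1 + 1 = L + 2 by ring, show L + 1 + 2 - 3 = L by omega, show 3 + E = E + 3 by ring]
    exact b5
  · intro f hf
    have h0 : Rm E 3 (Rg E 3 (κ 3) * sz E 3 + κ 3) f := by
      refine rm_all (f0 := e2) (by norm_num) (by omega) ?_ f hf
      rw [show e2 + 2 - 3 = e2 - 1 by omega, show 3 + E = E + 3 by ring]
      exact bP
    exact h0
  · intro d hd
    refine ⟨by omega, ?_, ?_, ?_⟩
    · -- Cndg
      have key : ∀ e, D - 2 ≤ e → Cndw E 3 (κ 3) W c c' L e := by
        intro e he
        refine ⟨?_, ?_, by omega⟩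
        · have h1 : Rm E 3 (W * sz E 3 + κ 3 + Xg E 3 c c' L (e + 1)) e := by
            refine rm_of (by norm_num) (by omega) ?_
            have hX : ∀ e, W * sz E 3 + κ 3 + Xg E 3 c c' L (e + 1) =
                (W * sz E 3 + κ 3 + 3 * (Nn E L + Yg E 3 c) + c') + (e + 1) * Yg E 3 c := by
              intro e
              unfold Xg
              ring
            rw [hX]
            have b6' := b6
            obtain ⟨D', rfl⟩ : ∃ D', D = D' + 2 := ⟨D - 2, by omega⟩
            rw [show D' + 2 - 1 = D' + 1 by omega, show D' + 2 - 3 = D' + 2 - 3 by rfl,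
              show D' + 2 - 2 = D' by omega, hX, show E + 3 = 3 + E by ring] at b6'
            rw [show D' + 2 - 2 = D' by omega] at he
            clear hX
            induction e, he using Nat.le_induction with
            | base => exact b6'
            | succ e he ih => exact first_step hE (by omega) ih
          exact h1
        · have h2 : (E + 4) * (W * sz E 3) ≤ (e - 1) * Nn E (e + 1) :=
            b7.trans (Nat.mul_le_mul (by omega) (Nn_mono E (by omega)))
          obtain ⟨e', rfl⟩ : ∃ e', e = e' + 1 := ⟨e - 1, by omega⟩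
          rw [Nat.add_sub_cancel] at h2
          calc (3 + E + 1) * (W * sz E 3) + 3 * Nn E (e' + 1 + 1)
              = (E + 4) * (W * sz E 3) + 3 * Nn E (e' + 1 + 1) := by ring
            _ ≤ e' * Nn E (e' + 1 + 1) + 3 * Nn E (e' + 1 + 1) := Nat.add_le_add_right h2 _
            _ = (e' + 1 + 2) * Nn E (e' + 1 + 1) := by ring
      intro e he1 he2
      exact key e (by omega)
    · have key : (Sz (E + 1) 3 * Qz E 3 (κ 3) L e2 + 1) + d * 0 ≤ dm E d := by
        induction d, hd using Nat.le_induction with
        | base => exact Nat.succ_le_of_lt b8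
        | succ d hd ih => exact aff (by omega) (dm_gro hE (by omega)) ih
      exact lt_of_lt_of_le (Nat.lt_succ_self _) key
    · have key : (Qz E 3 (κ 3) L e2 * sz E 3 + κ 3 + 3 * (Nn E L + Yg E 3 c) + c') +
          d * Yg E 3 c ≤ Nn E d := by
        induction d, hd using Nat.le_induction with
        | base =>
          refine le_trans (le_of_eq ?_) b9
          unfold Xg
          ring
        | succ d hd ih => exact aff (by omega) (Nn_gro hE (by omega)) ih
      refine le_trans (le_of_eq ?_) key
      unfold Xg
      ring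

end Pool.Agent.H69.FX
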